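import Pool.Agent.K1H22.DF.Stm6
import Pool.Agent.K1H96.DF.L4

/-! # Vertex-fault-tolerant graphs of diameter six: the discharging -/

set_option autoImplicit false

open Finset

namespace Pool.Agent.K1H40.DF6

open Pool.Agent.K1H22.DF
open Pool.Agent.K1H96.DF (dc)

theorem arithY (k j d z w : ℕ) (hk : 1 ≤ k) (hd : k ≤ d) (hj : 1 ≤ j) (hz : z + j ≤ d)
    (hw : (j = 1 ∧ d = k ∧ w = 1) ∨ (¬ (j = 1 ∧ d = k) ∧ w = 2)) :
    k * (k + 1) + 2 + w * z ≤ (k + 1) * (d + j) := by
  rcases hw with ⟨rfl, rfl, rfl⟩ | ⟨hn, rfl⟩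
  · nlinarith
  · obtain ⟨s, rfl⟩ := Nat.exists_eq_add_of_le hd
    have h1 : 2 * z + 2 * j ≤ 2 * (k + s) := by omega
    have h2 : (k + 1) * (k + s + j) = k * (k + 1) + (k + 1) * s + (k + 1) * j := by ring
    rw [h2]
    have h3 : 2 + 2 * k + 2 * s ≤ (k + 1) * s + (k + 1) * j + 2 * j := by
      obtain ⟨k', rfl⟩ := Nat.exists_eq_add_of_le hk
      rcases Nat.lt_or_ge 1 j with hj2 | hj1
      · have : (1 + k' + 1) * 2 ≤ (1 + k' + 1) * j := Nat.mul_le_mul_left _ hj2
        have : 2 * s ≤ (1 + k' + 1) * s := Nat.mul_le_mul_right _ (by omega)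
        omega
      · have hj' : j = 1 := by omega
        subst hj'
        have hs : 1 ≤ s := by
          by_contra h
          exact hn ⟨rfl, by omega⟩
        have e1 : (1 + k' + 1) * s = 2 * s + k' * s := by ring
        have e2 : k' ≤ k' * s := Nat.le_mul_of_pos_right _ hs
        omega
    omega

theorem t_DISCH6 : S_DISCH6 := by
  classical
  intro V _ _ G _ D k c hk hmin halt
  obtain ⟨B, hB⟩ : ∃ B, B = univ.filter (fun v => v ∉ hub G D) := ⟨_, rfl⟩
  rw [← hB]
  have mB : ∀ v, v ∈ B ↔ v ∉ hub G D := by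
    intro v; rw [hB]; simp
  obtain ⟨Y, hY⟩ : ∃ Y, Y = YY G D := ⟨_, rfl⟩
  obtain ⟨Z, hZ⟩ : ∃ Z, Z = ZZ G D := ⟨_, rfl⟩
  obtain ⟨O, hO⟩ : ∃ O, O = Z0 G D := ⟨_, rfl⟩
  obtain ⟨X, hX⟩ : ∃ X, X = (hub G D).biUnion (X6 G D k) := ⟨_, rfl⟩
  rw [← hX]
  rw [← hO] at halt
  have mY : ∀ v, v ∈ Y ↔ v ∉ hub G D ∧ hn G D v ≠ ∅ := by
    intro v; rw [hY]; simp [YY]
  have mZ : ∀ v, v ∈ Z ↔ v ∉ hub G D ∧ hn G D v = ∅ := by
    intro v; rw [hZ]; simp [ZZ]
  have mO : ∀ v, v ∈ O ↔ v ∈ Z ∧ G.neighborFinset v ⊆ Z := by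
    intro v; rw [hO, hZ]; simp [Z0]
  have hOZ : O ⊆ Z := fun v hv => ((mO v).1 hv).1
  have hBYZ : B = Y ∪ Z := by
    ext v
    rw [mB, mem_union, mY, mZ]
    tauto
  have hdisj : Disjoint Y Z := by
    rw [disjoint_left]
    intro v h1 h2
    exact ((mY v).1 h1).2 ((mZ v).1 h2).2
  obtain ⟨W, hW⟩ : ∃ W, W = Z \ O := ⟨_, rfl⟩
  have mW : ∀ v, v ∈ W ↔ v ∈ Z ∧ v ∉ O := by
    intro v; rw [hW, mem_sdiff]
  let j : V → ℕ := fun v => (hn G D v).card
  let w : V → ℕ := fun p => if j p = 1 ∧ G.degree p = k then 1 else 2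
  have hsplit : ∑ v, G.degree v = ∑ v ∈ B, G.degree v + ∑ v ∈ hub G D, G.degree v := by
    have : B = univ \ hub G D := by ext v; rw [mB]; simp
    rw [this, sum_sdiff (subset_univ _)]
  have hH : ∑ v ∈ B, (hn G D v).card ≤ ∑ v ∈ hub G D, G.degree v := by
    unfold hn
    rw [dc G B (hub G D)]
    apply sum_le_sum
    intro x _
    rw [← G.card_neighborFinset_eq_degree]
    exact card_filter_le _ _
  obtain ⟨a, ha⟩ : ∃ a : V → ℕ, a = fun v => G.degree v + j v := ⟨_, rfl⟩
  have hav : ∀ v, a v = G.degree v + j v := fun v => by rw [ha]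
  have h0 : ∑ v ∈ B, a v ≤ ∑ v, G.degree v := by
    rw [sum_congr rfl (fun v _ => hav v), sum_add_distrib, hsplit]
    exact Nat.add_le_add_left hH _
  -- the charges in `Y`
  have pY : ∀ p ∈ Y, k * (k + 1) + 2 + w p * ((G.neighborFinset p).filter (fun x => x ∈ Z)).card ≤
      (k + 1) * a p := by
    intro p hp
    rw [hav]
    have hp' := (mY p).1 hp
    refine arithY k (j p) (G.degree p) _ (w p) hk (hmin p) ?_ ?_ ?_
    · exact card_pos.2 (nonempty_iff_ne_empty.2 hp'.2)
    · rw [← G.card_neighborFinset_eq_degree]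
      have hd : Disjoint ((G.neighborFinset p).filter (fun x => x ∈ Z)) (hn G D p) := by
        rw [disjoint_left]
        intro x h1 h2
        rw [mem_filter, mZ] at h1
        unfold hn at h2
        rw [mem_filter] at h2
        exact h1.2.1 h2.2
      rw [← card_union_of_disjoint hd]
      apply card_le_card
      intro x hx
      rw [mem_union] at hx
      rcases hx with hx | hx
      · exact (mem_filter.1 hx).1
      · unfold hn at hx
        exact (mem_filter.1 hx).1
    · by_cases h : j p = 1 ∧ G.degree p = k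
      · left
        exact ⟨h.1, h.2, if_pos h⟩
      · right
        exact ⟨h, if_neg h⟩
  -- the weight received by the vertices of `W`
  have rW : ∀ x ∈ W, 2 ≤ (∑ p ∈ (G.neighborFinset x).filter (fun p => p ∈ Y), w p) +
      2 * (if x ∈ X then 1 else 0) := by
    intro x hx
    obtain ⟨hxZ, hxO⟩ := (mW x).1 hx
    have hxZ' := (mZ x).1 hxZ
    -- a neighbour in `Y`
    obtain ⟨p, hpN, hpZ⟩ : ∃ p ∈ G.neighborFinset x, p ∉ Z := by
      by_contra hcon
      push Not at hcon
      exact hxO ((mO x).2 ⟨hxZ, hcon⟩)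
    have hph : p ∉ hub G D := by
      intro h
      have : p ∈ hn G D x := by
        unfold hn
        exact mem_filter.2 ⟨hpN, h⟩
      rw [hxZ'.2] at this
      exact notMem_empty _ this
    have hpY : p ∈ Y := by
      rw [mY]
      refine ⟨hph, fun h => hpZ ((mZ p).2 ⟨hph, h⟩)⟩
    have hpF : p ∈ (G.neighborFinset x).filter (fun p => p ∈ Y) := mem_filter.2 ⟨hpN, hpY⟩
    have hw1 : ∀ q, 1 ≤ w q := by
      intro q
      show 1 ≤ if j q = 1 ∧ G.degree q = k then 1 else 2
      split_ifs <;> omega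
    by_cases hwp : j p = 1 ∧ G.degree p = k
    · by_cases huniq : ∀ q ∈ Y, G.Adj x q → q = p
      · -- exceptional
        have hxX : x ∈ X := by
          obtain ⟨h, hh⟩ := card_eq_one.1 hwp.1
          have hhub : h ∈ hub G D := by
            have : h ∈ hn G D p := by rw [hh]; exact mem_singleton_self h
            unfold hn at this
            exact (mem_filter.1 this).2
          rw [hX, mem_biUnion]
          refine ⟨h, hhub, ?_⟩
          unfold X6
          rw [mem_filter]
          refine ⟨hZ ▸ hxZ, p, hY ▸ hpY, ?_, hh, hwp.2, ?_⟩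
          · exact (G.mem_neighborFinset x p).1 hpN
          · intro q hq hadj
            exact huniq q (hY ▸ hq) hadj
        rw [if_pos hxX]
        omega
      · push Not at huniq
        obtain ⟨q, hqY, hqa, hqp⟩ := huniq
        have hqF : q ∈ (G.neighborFinset x).filter (fun p => p ∈ Y) :=
          mem_filter.2 ⟨(G.mem_neighborFinset x q).2 hqa, hqY⟩
        have h2 : w q + w p ≤ ∑ p ∈ (G.neighborFinset x).filter (fun p => p ∈ Y), w p := by
          rw [← sum_pair hqp]
          apply sum_le_sum_of_subset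
          intro y hy
          rw [mem_insert, mem_singleton] at hy
          rcases hy with rfl | rfl
          · exact hqF
          · exact hpF
        have := hw1 p
        have := hw1 q
        omega
    · have h2 : w p = 2 := if_neg hwp
      have h3 : w p ≤ ∑ p ∈ (G.neighborFinset x).filter (fun p => p ∈ Y), w p :=
        single_le_sum (f := w) (fun _ _ => Nat.zero_le _) hpF
      omega
  -- the sums
  have s1 : ∑ p ∈ Y, w p * ((G.neighborFinset p).filter (fun x => x ∈ Z)).card =
      ∑ x ∈ Z, ∑ p ∈ (G.neighborFinset x).filter (fun p => p ∈ Y), w p := by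
    have h1 : ∀ p ∈ Y, w p * ((G.neighborFinset p).filter (fun x => x ∈ Z)).card =
        ∑ x ∈ (G.neighborFinset p).filter (fun x => x ∈ Z), w p := by
      intro p _
      rw [sum_const, smul_eq_mul, mul_comm]
    rw [sum_congr rfl h1]
    apply sum_comm'
    intro x y
    simp only [mem_filter, SimpleGraph.mem_neighborFinset]
    rw [G.adj_comm]
    tauto
  have s2 : ∑ x ∈ W, ∑ p ∈ (G.neighborFinset x).filter (fun p => p ∈ Y), w p ≤
      ∑ x ∈ Z, ∑ p ∈ (G.neighborFinset x).filter (fun p => p ∈ Y), w p :=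
    sum_le_sum_of_subset fun x hx => ((mW x).1 hx).1
  have s3 := dc G W O
  have s4 : ∑ x ∈ W, (if x ∈ X then 1 else 0) ≤ X.card := by
    rw [← card_filter]
    exact card_le_card fun v hv => (mem_filter.mp hv).2
  have s5 : ∑ v ∈ B, a v = ∑ v ∈ Y, a v + (∑ v ∈ W, a v + ∑ v ∈ O, a v) := by
    rw [hBYZ, sum_union hdisj, hW, sum_sdiff hOZ]
  have s6 : B.card = Y.card + (W.card + O.card) := by
    rw [hBYZ, card_union_of_disjoint hdisj, hW, card_sdiff_add_card_eq_card hOZ]
  have sY := sum_le_sum pY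
  rw [sum_add_distrib, sum_const, smul_eq_mul, ← mul_sum, s1] at sY
  rcases halt with h1 | h2
  · -- few deep vertices
    have pW : ∀ x ∈ W, k * (k + 1) + 2 ≤ (k + 1) * a x +
        ((∑ p ∈ (G.neighborFinset x).filter (fun p => p ∈ Y), w p) +
          2 * (if x ∈ X then 1 else 0)) := by
      intro x hx
      have e1 : k * (k + 1) ≤ (k + 1) * a x := by
        rw [mul_comm, hav]
        exact Nat.mul_le_mul_left _ ((hmin x).trans (Nat.le_add_right _ _))
      have := rW x hx
      omega
    have pO : ∀ x ∈ O, k * (k + 1) + 2 ≤ (k + 1) * a x + 2 := by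
      intro x _
      have e1 : k * (k + 1) ≤ (k + 1) * a x := by
        rw [mul_comm, hav]
        exact Nat.mul_le_mul_left _ ((hmin x).trans (Nat.le_add_right _ _))
      omega
    have sW := sum_le_sum pW
    rw [sum_const, smul_eq_mul, sum_add_distrib, ← mul_sum, sum_add_distrib, ← mul_sum] at sW
    have sO := sum_le_sum pO
    rw [sum_const, smul_eq_mul, sum_add_distrib, ← mul_sum, sum_const, smul_eq_mul] at sO
    have h3 : (k + 1) * ∑ v ∈ B, a v ≤ (k + 1) * ∑ v, G.degree v :=
      Nat.mul_le_mul_left _ h0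
    rw [s5, mul_add, mul_add] at h3
    rw [s6]
    have h4 : (k * (k + 1) + 2) * (Y.card + (W.card + O.card)) =
      Y.card * (k * (k + 1) + 2) + W.card * (k * (k + 1) + 2) + O.card * (k * (k + 1) + 2) := by ring
    rw [h4]
    omega
  · -- many deep vertices
    have hqd : ∀ x, x ∉ hub G D →
        k + ((G.neighborFinset x).filter (fun y => y ∈ O)).card ≤ G.degree x := by
      intro x hx
      have e := card_filter_add_card_filter_not (s := G.neighborFinset x) (fun y => y ∈ O)
      rw [G.card_neighborFinset_eq_degree] at e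
      have := h2 x hx
      omega
    have pW : ∀ x ∈ W, k * (k + 1) + 2 + 2 * ((G.neighborFinset x).filter (fun y => y ∈ O)).card ≤
        (k + 1) * a x +
        ((∑ p ∈ (G.neighborFinset x).filter (fun p => p ∈ Y), w p) +
          2 * (if x ∈ X then 1 else 0)) := by
      intro x hx
      have hxh : x ∉ hub G D := ((mZ x).1 ((mW x).1 hx).1).1
      have hq := hqd x hxh
      obtain ⟨q, hqe⟩ : ∃ q, q = ((G.neighborFinset x).filter (fun y => y ∈ O)).card := ⟨_, rfl⟩
      rw [← hqe] at hq ⊢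
      have e1 : (k + 1) * (k + q) ≤ (k + 1) * a x := by
        rw [hav]
        exact Nat.mul_le_mul_left _ (hq.trans (Nat.le_add_right _ _))
      have e2 : k * (k + 1) + 2 * q ≤ (k + 1) * (k + q) := by
        have : (k + 1) * (k + q) = k * (k + 1) + (k + 1) * q := by ring
        rw [this]
        exact Nat.add_le_add_left (Nat.mul_le_mul_right _ (by omega)) _
      have := rW x hx
      omega
    have pO : ∀ x ∈ O, k * (k + 1) + 2 ≤ (k + 1) * a x +
        2 * ((G.neighborFinset x).filter (fun y => y ∈ W)).card := by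
      intro x hx
      have hx' := (mO x).1 hx
      have hxh : x ∉ hub G D := ((mZ x).1 hx'.1).1
      have e0 : (G.neighborFinset x).filter (fun y => y ∉ O) ⊆
          (G.neighborFinset x).filter (fun y => y ∈ W) := by
        intro y hy
        rw [mem_filter] at hy ⊢
        exact ⟨hy.1, (mW y).2 ⟨hx'.2 hy.1, hy.2⟩⟩
      have e2 := (h2 x hxh).trans (card_le_card e0)
      have e1 : k * (k + 1) ≤ (k + 1) * a x := by
        rw [mul_comm, hav]
        exact Nat.mul_le_mul_left _ ((hmin x).trans (Nat.le_add_right _ _))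
      omega
    have sW := sum_le_sum pW
    rw [sum_add_distrib, sum_const, smul_eq_mul, ← mul_sum, sum_add_distrib, ← mul_sum,
      sum_add_distrib, ← mul_sum, s3] at sW
    have sO := sum_le_sum pO
    rw [sum_const, smul_eq_mul, sum_add_distrib, ← mul_sum, ← mul_sum] at sO
    have h3 : (k + 1) * ∑ v ∈ B, a v ≤ (k + 1) * ∑ v, G.degree v :=
      Nat.mul_le_mul_left _ h0
    rw [s5, mul_add, mul_add] at h3
    rw [s6]
    have h4 : (k * (k + 1) + 2) * (Y.card + (W.card + O.card)) =
      Y.card * (k * (k + 1) + 2) + W.card * (k * (k + 1) + 2) + O.card * (k * (k + 1) + 2) := by ring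
    rw [h4]
    omega

end Pool.Agent.K1H40.DF6
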